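import Pool.Agent.H178.GirthC

set_option autoImplicit false

/-!
# Graphs of girth at least five whose neighbour degrees have no single steps

`T(G)` is the set of nonempty cliques of `G` ordered by inclusion. Let `G` be a finite graph with
at least three vertices without triangles and without 4-cycles.

(1) If there are no two vertices `x`, `y` such that the multiset of the degrees of the neighbours
of `y` arises from the one of `x` by replacing one element `j` by `j + 1`, then `T(G)` and `T(Gᶜ)`
are reconstructible from their decks of maximal filter deleted subsets.

(2) In particular this holds if the degree sums of the neighbours of two vertices of equal degree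
never differ by exactly one. This is the case if the degree sum of the neighbours depends only on
the degree of the vertex: for the graphs of girth at least five with at most two main eigenvalues
(regular, semiregular bipartite and harmonic graphs, for example), and for those whose degree
partition is equitable, for example if any two vertices of equal degree are similar. It is also the
case if every edge joins a vertex of odd degree and a vertex of even degree.

(3) A local version: `v` is a vertex of minimum degree `δ`, and there is no path `v, x, u` and no
vertex `y` such that `x` has degree more than `δ` and the degrees of the neighbours of `y` arise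
from those of the neighbours of `u` by lowering the degree of `x` by one. If some neighbour of `v`
does not have degree `δ + 1`, or if at most `δ` vertices have degree `δ`, then `T(G)` and `T(Gᶜ)`
are reconstructible.

Proof. Let `H` be hypomorphic to `G` and not isomorphic to `G`, and let `K` be the graph on the
vertices of `G` which is isomorphic to `H` and in which only the neighbourhood of `v` is different.
Let `S` be the set of the lost neighbours of `v`, `T` the set of the new ones. A vertex outside sees
at most one vertex of `S` and at most one of `T`, and by the condition on the degrees it sees `S` iff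
it sees `T`. Hence the neighbours of a vertex of `S` are matched into `T` and vice versa, which
bounds their degrees by `|T| + 1` and `|T|`. For a vertex `v` of minimum degree and then for its
neighbours this determines everything: with a new vertex joined to the vertices of minimum degree
`G` becomes a regular graph `M` of diameter two (a Moore graph), and `H` is isomorphic to `M - v`
for all `v` in `G`. By symmetry `G` is isomorphic to `M - u` for a vertex `u` of `G`, and so to `H`.
-/

namespace Pool.Agent.Results.MP_552896_co.GirthFiveDegreeSums

/-- The truncated clique lattices of `G` and `H` have the same deck of maximal filter deleted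
subsets: some bijection `f` of the vertex sets is such that, for every vertex `v`, the nonempty
cliques of `G` avoiding `v` and the nonempty cliques of `H` avoiding `f v`, both ordered by
inclusion, are isomorphic ordered sets. -/
def SameDeck {V W : Type} (G : SimpleGraph V) (H : SimpleGraph W) : Prop :=
  ∃ f : V ≃ W, ∀ v : V,
    Nonempty ({s : Finset V // s.Nonempty ∧ G.IsClique (s : Set V) ∧ v ∉ s} ≃o
      {t : Finset W // t.Nonempty ∧ H.IsClique (t : Set W) ∧ f v ∉ t})

/-- `T(G)` is reconstructible from its deck: every truncated clique lattice `T(H)` of a finite
graph `H` with the same deck is isomorphic to `T(G)`. -/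
def Reconstructible {V : Type} (G : SimpleGraph V) : Prop :=
  ∀ (W : Type) [Fintype W] (H : SimpleGraph W), SameDeck G H →
    Nonempty ({s : Finset V // s.Nonempty ∧ G.IsClique (s : Set V)} ≃o
      {t : Finset W // t.Nonempty ∧ H.IsClique (t : Set W)})

open Classical in
/-- the multiset of the degrees of the neighbours of `x` -/
noncomputable def nbrDegrees {V : Type} [Fintype V] (G : SimpleGraph V) (x : V) : Multiset ℕ :=
  (G.neighborFinset x).val.map (fun z => G.degree z)

section aux

open Classical
open Pool.Agent.H178.GR

variable {V : Type} [Fintype V] {G : SimpleGraph V}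

lemma N_eq (x : V) : N G x = G.neighborFinset x := by
  ext y
  rw [mem_N, SimpleGraph.mem_neighborFinset]

lemma dg_eq (x : V) : dg G x = G.degree x := by
  unfold dg
  rw [N_eq]
  rfl

lemma D_eq (x : V) : D G x = nbrDegrees G x := by
  unfold D nbrDegrees
  rw [N_eq]
  exact Multiset.map_congr rfl fun y _ => dg_eq y

lemma notri (h : 5 ≤ G.egirth) : NoTri G := by
  intro a b c hab hbc hac
  rw [SimpleGraph.le_egirth] at h
  have hc : (SimpleGraph.Walk.cons hab (.cons hbc (.cons hac.symm .nil))).IsCycle := by
    rw [SimpleGraph.Walk.cons_isCycle_iff]
    refine ⟨?_, ?_⟩
    · rw [SimpleGraph.Walk.isPath_def]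
      simp [hab.ne, hab.ne', hbc.ne, hac.ne', hbc.ne']
    · simp [hab.ne, hab.ne', hbc.ne, hac.ne', hbc.ne', hac.ne]
  have := h _ _ hc
  simp only [SimpleGraph.Walk.length_cons, SimpleGraph.Walk.length_nil] at this
  norm_cast at this

lemma noquad (h : 5 ≤ G.egirth) : NoQuad G := by
  intro a b c d hac hab hbc had hdc
  by_contra hbd
  rw [SimpleGraph.le_egirth] at h
  have hc : (SimpleGraph.Walk.cons hab (.cons hbc (.cons hdc.symm (.cons had.symm .nil)))).IsCycle := by
    rw [SimpleGraph.Walk.cons_isCycle_iff]
    refine ⟨?_, ?_⟩
    · rw [SimpleGraph.Walk.isPath_def]
      simp [hab.ne', hbc.ne, hbd, hac, Ne.symm hac, hdc.ne', had.ne', Ne.symm hbd]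
    · simp [hab.ne, hab.ne', hbc.ne, hac, Ne.symm hac, hbd, Ne.symm hbd, hdc.ne, hdc.ne', had.ne,
        had.ne']
  have := h _ _ hc
  simp only [SimpleGraph.Walk.length_cons, SimpleGraph.Walk.length_nil] at this
  norm_cast at this

end aux

open Classical in
/-- Let `G` be a graph with at least three vertices and girth at least five. (1) If the degrees of
the neighbours of a vertex `y` never arise from those of a vertex `x` by replacing one `j` by
`j + 1`, then `T(G)` and `T(Gᶜ)` are reconstructible. (2) In particular they are if the degree sums
of the neighbours of two vertices of equal degree never differ by exactly one. (3) They are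
reconstructible if there is a vertex `v` of minimum degree such that the degrees of the neighbours
of a vertex `y` never arise from those of a vertex `u ≠ v` adjacent to a neighbour `x` of `v` with
`deg v < deg x` by replacing one `deg x` by `deg x - 1`, and such that some neighbour of `v` does
not have degree `deg v + 1` or at most `deg v` vertices have degree `deg v`. -/
theorem result (V : Type) [Fintype V] (G : SimpleGraph V) (hV : 3 ≤ Fintype.card V)
    (hg : 5 ≤ G.egirth) :
    -- (1) no single steps
    ((∀ (x y : V) (j : ℕ) (R : Multiset ℕ),
        nbrDegrees G x = j ::ₘ R → nbrDegrees G y ≠ (j + 1) ::ₘ R) →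
      Reconstructible G ∧ Reconstructible Gᶜ) ∧
    -- (2) degree sums
    ((∀ x y : V, G.degree x = G.degree y →
        ∑ z ∈ G.neighborFinset y, G.degree z ≠ ∑ z ∈ G.neighborFinset x, G.degree z + 1) →
      Reconstructible G ∧ Reconstructible Gᶜ) ∧
    -- (3) one vertex of minimum degree
    (∀ v : V, (∀ x, G.degree v ≤ G.degree x) →
      (∀ x u, G.Adj v x → G.degree v < G.degree x → G.Adj x u → u ≠ v →
        ∀ (y : V) (R : Multiset ℕ),
          nbrDegrees G u = G.degree x ::ₘ R → nbrDegrees G y ≠ (G.degree x - 1) ::ₘ R) →
      ((∃ x, G.Adj v x ∧ G.degree x ≠ G.degree v + 1) ∨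
        (Finset.univ.filter (fun x => G.degree x = G.degree v)).card ≤ G.degree v) →
      Reconstructible G ∧ Reconstructible Gᶜ) := by
  have tG := notri hg
  have qG := noquad hg
  have h1 : ((∀ (x y : V) (j : ℕ) (R : Multiset ℕ),
        nbrDegrees G x = j ::ₘ R → nbrDegrees G y ≠ (j + 1) ::ₘ R) →
      Reconstructible G ∧ Reconstructible Gᶜ) := by
    intro h
    refine Pool.Agent.TH87.RVE.rec_of G _ (fun H π hH hN h => ?_) h
    refine (Pool.Agent.H178.GR.mk_pair hV hH hN tG qG ?_).false
    intro x y j R
    rw [D_eq, D_eq]
    exact h x y j R
  refine ⟨h1, fun h => h1 fun x y j R hx hy => ?_, fun v hv hno h => ?_⟩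
  · have e1 : G.degree x = Multiset.card R + 1 := by
      rw [← dg_eq, ← Pool.Agent.H178.GR.card_D, D_eq, hx, Multiset.card_cons]
    have e2 : G.degree y = Multiset.card R + 1 := by
      rw [← dg_eq, ← Pool.Agent.H178.GR.card_D, D_eq, hy, Multiset.card_cons]
    refine h x y (by rw [e1, e2]) ?_
    have s : ∀ z : V, ∑ w ∈ G.neighborFinset z, G.degree w = (nbrDegrees G z).sum := fun z => rfl
    rw [s, s, hx, hy, Multiset.sum_cons, Multiset.sum_cons]
    omega
  · refine Pool.Agent.TH87.RVE.rec_of G _ (fun H π hH hN h => ?_) h
    refine (Pool.Agent.H178.GR.mk_pair0 hV hH hN tG qG).local_false (v := v) ?_ ?_ ?_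
    · intro x
      rw [dg_eq, dg_eq]; exact hv x
    · intro x u h1 h2 h3 h4 y R
      rw [D_eq, D_eq, dg_eq]
      rw [dg_eq, dg_eq] at h2
      exact hno x u h1 h2 h3 h4 y R
    · simp only [dg_eq]
      exact h

end Pool.Agent.Results.MP_552896_co.GirthFiveDegreeSums
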