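import Pool.Agent.H386.TM.Bip

set_option autoImplicit false

/-!
# Graphs with two main eigenvalues

`T(G)` is the set of nonempty cliques of `G` ordered by inclusion.  Let `G` be a graph in which the
sum of the degrees of the neighbours of a vertex `x` is `a * deg x + b` (equivalently, a graph with
at most two main eigenvalues).  We prove that `T(G)` and `T` of the complement are reconstructible
if `G` is bipartite, or if some vertex has no switch pair, or if the other eigenvalues lie in an interval whose length is
at most the difference of two degrees, and in several related cases.  In particular this holds for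
the graphs with the degrees `k` and `k + 1` in which every vertex of degree `k` has `p` and every
vertex of degree `k + 1` has `q` neighbours of degree `k + 1`, if `p ≥ 2 q` or `q ≥ 2 p`.

The proof.  Let `v` be a vertex, `A` the adjacency matrix of `G - v`, and `y` the neighbourhood
vector of `v`.  The hypothesis says that `(A - (a - deg v)) y` is a combination of the walk vectors
`1, A 1, A² 1` of `G - v`.  If `y'` is the neighbourhood vector of `v` in a hypomorphic graph, seen
in `G - v`, then `y'` has the same inner products with the walk vectors and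
`⟨y', Aᵏ y'⟩ = ⟨y, Aᵏ y⟩`; hence the vector `(A - (a - deg v)) (y - y')` has length zero.  So
`y - y'` is an eigenvector of `G - v` with entries `1, -1, 0`.
-/

namespace Pool.Agent.Results.MP_552896_co.TwoMainEigenvalues

/-- The truncated clique lattices of `G` and `H` have the same deck of maximal filter deleted
subsets: some bijection `f` of the vertex sets is such that, for every vertex `v`, the nonempty
cliques of `G` avoiding `v` and the nonempty cliques of `H` avoiding `f v`, both ordered by
inclusion, are isomorphic ordered sets. -/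
def SameDeck {V W : Type} (G : SimpleGraph V) (H : SimpleGraph W) : Prop :=
  ∃ f : V ≃ W, ∀ v : V,
    Nonempty ({s : Finset V // s.Nonempty ∧ G.IsClique (s : Set V) ∧ v ∉ s} ≃o
      {t : Finset W // t.Nonempty ∧ H.IsClique (t : Set W) ∧ f v ∉ t})

/-- `T(G)` is reconstructible from its deck: every truncated clique lattice `T(H)` of a finite
graph `H` with the same deck is isomorphic to `T(G)`. -/
def Reconstructible {V : Type} (G : SimpleGraph V) : Prop :=
  ∀ (W : Type) [Fintype W] (H : SimpleGraph W), SameDeck G H →
    Nonempty ({s : Finset V // s.Nonempty ∧ G.IsClique (s : Set V)} ≃o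
      {t : Finset W // t.Nonempty ∧ H.IsClique (t : Set W)})

open Classical Finset in
/-- The neighbours of `x`. -/
noncomputable def nbhd {V : Type} [Fintype V] (G : SimpleGraph V) (x : V) : Finset V :=
  univ.filter fun y => G.Adj x y

/-- The degree of `x`. -/
noncomputable def deg {V : Type} [Fintype V] (G : SimpleGraph V) (x : V) : ℕ := (nbhd G x).card

/-- The sum of the degrees of the neighbours of `x` is `a * deg x + b`, for every vertex `x`
(this holds for some `a`, `b` if and only if `G` has at most two main eigenvalues). -/
def DegreeSums {V : Type} [Fintype V] (G : SimpleGraph V) (a b : ℚ) : Prop :=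
  ∀ x, ∑ u ∈ nbhd G x, (deg G u : ℚ) = a * deg G x + b

/-- The value at `z` of the quadratic form of the adjacency matrix. -/
noncomputable def form {V : Type} [Fintype V] (G : SimpleGraph V) (z : V → ℝ) : ℝ :=
  ∑ x, z x * ∑ y ∈ nbhd G x, z y

/-- `s |z|² ≤ form z` for the vectors `z` orthogonal to the all ones vector and to the vector of
the degrees.  If `DegreeSums` holds this says that all nonmain eigenvalues are at least `s`. -/
def NonmainAtLeast {V : Type} [Fintype V] (G : SimpleGraph V) (s : ℝ) : Prop :=
  ∀ z : V → ℝ, ∑ x, z x = 0 → ∑ x, (deg G x : ℝ) * z x = 0 → s * ∑ x, z x * z x ≤ form G z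

/-- `form z ≤ t |z|²` for the vectors `z` orthogonal to the all ones vector and to the vector of
the degrees.  If `DegreeSums` holds this says that all nonmain eigenvalues are at most `t`. -/
def NonmainAtMost {V : Type} [Fintype V] (G : SimpleGraph V) (t : ℝ) : Prop :=
  ∀ z : V → ℝ, ∑ x, z x = 0 → ∑ x, (deg G x : ℝ) * z x = 0 → form G z ≤ t * ∑ x, z x * z x

open Classical Finset in
/-- The neighbours `x` of `v` such that some non-neighbour `y ≠ v` of `v` has
`deg x = deg y + 1`. -/
noncomputable def ups {V : Type} [Fintype V] (G : SimpleGraph V) (v : V) : Finset V :=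
  univ.filter fun x => G.Adj v x ∧ ∃ y, y ≠ v ∧ ¬ G.Adj v y ∧ deg G x = deg G y + 1

open Classical Finset in
/-- The non-neighbours `y ≠ v` of `v` such that some neighbour `x` of `v` has
`deg x = deg y + 1`. -/
noncomputable def downs {V : Type} [Fintype V] (G : SimpleGraph V) (v : V) : Finset V :=
  univ.filter fun y => y ≠ v ∧ ¬ G.Adj v y ∧ ∃ x, G.Adj v x ∧ deg G x = deg G y + 1

open Classical Finset in
/-- The number of neighbours of `x` which have degree `d`. -/
noncomputable def nbhdDeg {V : Type} [Fintype V] (G : SimpleGraph V) (x : V) (d : ℕ) : ℕ :=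
  (univ.filter fun y => G.Adj x y ∧ deg G y = d).card

open Classical Finset in
/-- The number of neighbours of `x` which are neighbours of `v`. -/
noncomputable def inside {V : Type} [Fintype V] (G : SimpleGraph V) (v x : V) : ℕ :=
  (univ.filter fun u => G.Adj x u ∧ G.Adj v u).card

open Classical Finset in
/-- The number of neighbours of `x` which are different from `v` and no neighbours of `v`. -/
noncomputable def outside {V : Type} [Fintype V] (G : SimpleGraph V) (v x : V) : ℕ :=
  (univ.filter fun u => G.Adj x u ∧ u ≠ v ∧ ¬ G.Adj v u).card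

open Classical Finset in
/-- A switch pair at `v` with the number `θ`: a set `X` of at least two neighbours of `v` and a
set `Y` of equally many non-neighbours of `v` different from `v`, such that for every `d` the number
of vertices of degree `d + 1` in `X` is the number of vertices of degree `d` in `Y`, every vertex
different from `v` outside `X` and `Y` has equally many neighbours in `X` and in `Y`, and for each
vertex of `X` and of `Y` the number of neighbours in the own set minus the number of neighbours in
the other set is `θ`. -/
structure SwitchPair {V : Type} [Fintype V] (G : SimpleGraph V) (θ : ℚ) (v : V)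
    (X Y : Finset V) : Prop where
  adj : ∀ x ∈ X, G.Adj v x
  nadj : ∀ y ∈ Y, y ≠ v ∧ ¬ G.Adj v y
  two : 2 ≤ X.card
  card : X.card = Y.card
  deg : ∀ d, (X.filter fun x => deg G x = d + 1).card = (Y.filter fun y => deg G y = d).card
  out : ∀ u, u ≠ v → u ∉ X → u ∉ Y →
    (X.filter fun x => G.Adj u x).card = (Y.filter fun y => G.Adj u y).card
  insX : ∀ x ∈ X, ((X.filter fun u => G.Adj x u).card : ℚ) -
    (Y.filter fun u => G.Adj x u).card = θ
  insY : ∀ y ∈ Y, ((Y.filter fun u => G.Adj y u).card : ℚ) -
    (X.filter fun u => G.Adj y u).card = θ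

/-- Let `G` be a graph with at least three vertices.
(A) Let the sum of the degrees of the neighbours of `x` be `a * deg x + b` for every vertex `x`.
Then `T(G)` and `T(Gᶜ)` are reconstructible in each of the following cases.
(1) Some vertex `v` has no switch pair with the number `a - deg v`.
(2) For some vertex `v` and `r = min |ups v| |downs v|`, `r ≤ a - deg v` or `r < deg v - a`.
(3) `G` is not regular, all nonmain eigenvalues lie in `[s, t]` and `t - s ≤ deg x - deg y` for
some vertices `x`, `y`.
(4) All nonmain eigenvalues are at least `a - deg v` for some vertex `v` of more than average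
degree, or at most `a - deg v` for some vertex `v` of less than average degree.
(5) `G` is connected and not regular, and for the smaller root `μ` of `μ² = a μ + b` all nonmain
eigenvalues are at least `μ`, or all are at most `μ`.
(6) `G` is bipartite.
(7) For some vertex `v`, every neighbour of `v` has fewer than `a - deg v` neighbours in `N(v)`; or
every neighbour of `v` has fewer than `deg v - a` neighbours different from `v` outside `N(v)`.
(B) If all degrees are `k` or `k + 1`, every vertex of degree `k` has `p` and every vertex of degree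
`k + 1` has `q` neighbours of degree `k + 1`, and `2 p ≤ q` or `2 q ≤ p`, then `T(G)` and `T(Gᶜ)`
are reconstructible. -/
theorem result {V : Type} [Fintype V] (G : SimpleGraph V) (hn : 3 ≤ Fintype.card V) :
    (∀ a b : ℚ, DegreeSums G a b →
      ((∃ v, ∀ X Y, ¬ SwitchPair G (a - deg G v) v X Y) ∨
        (∃ v, ((min (ups G v).card (downs G v).card : ℕ) : ℚ) ≤ a - deg G v ∨
          ((min (ups G v).card (downs G v).card : ℕ) : ℚ) < deg G v - a) ∨
        ((∃ x y, deg G x ≠ deg G y) ∧ ∃ (s t : ℝ) (x y : V), NonmainAtLeast G s ∧
          NonmainAtMost G t ∧ t - s ≤ deg G x - deg G y) ∨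
        (∃ v, (∑ x, (deg G x : ℝ) < Fintype.card V * deg G v ∧ NonmainAtLeast G (a - deg G v)) ∨
          (Fintype.card V * deg G v < ∑ x, (deg G x : ℝ) ∧ NonmainAtMost G (a - deg G v))) ∨
        (G.Connected ∧ (∃ x y, deg G x ≠ deg G y) ∧ ∃ μ : ℝ, μ ^ 2 = a * μ + b ∧ μ ≤ a - μ ∧
          (NonmainAtLeast G μ ∨ NonmainAtMost G μ)) ∨
        (∃ c : V → Bool, ∀ x y, G.Adj x y → c x ≠ c y) ∨
        (∃ v, (∀ x, G.Adj v x → (inside G v x : ℚ) < a - deg G v) ∨
          (∀ x, G.Adj v x → (outside G v x : ℚ) < deg G v - a))) →
      Reconstructible G ∧ Reconstructible Gᶜ) ∧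
    (∀ k p q : ℕ, (∀ x, deg G x = k ∨ deg G x = k + 1) →
      (∀ x, deg G x = k → nbhdDeg G x (k + 1) = p) →
      (∀ x, deg G x = k + 1 → nbhdDeg G x (k + 1) = q) → (2 * p ≤ q ∨ 2 * q ≤ p) →
      Reconstructible G ∧ Reconstructible Gᶜ) := by
  classical
  refine ⟨fun a b hab h => ?_, fun k p q hk hp hq hpq =>
    Pool.Agent.H386.TM.bidegreed G hn k p q hk hp hq hpq⟩
  rcases h with ⟨v, hv⟩ | ⟨v, hv⟩ | ⟨hne, s, t, x, y, hs, ht, hxy⟩ | ⟨v, hv⟩ |
    ⟨hG, hne, μ, h1, h2, h3⟩ | ⟨c, hc⟩ | ⟨v, hv⟩
  · refine Pool.Agent.H386.TM.main G hn a b hab v fun X Y h => hv X Y ?_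
    refine ⟨h.adj, h.nadj, h.two, h.card, fun d => ?_, h.out, h.insX, h.insY⟩
    have h1 := h.deg d
    convert h1 using 2
    · refine Finset.filter_congr fun x hx => ?_
      have h2 := Pool.Agent.Q266.WN.dg_del G (h.adj x hx).ne'
      rw [if_pos (h.adj x hx)] at h2
      have h3 : deg G x = Pool.Agent.Q266.WN.dg G x := rfl
      rw [h3, h2]
      omega
    · refine Finset.filter_congr fun y hy => ?_
      have h2 := Pool.Agent.Q266.WN.dg_del G (h.nadj y hy).1
      rw [if_neg (h.nadj y hy).2] at h2
      have h3 : deg G y = Pool.Agent.Q266.WN.dg G y := rfl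
      rw [h3, h2]
      omega
  · exact Pool.Agent.H386.TM.ups_downs G hn a b hab v hv
  · exact Pool.Agent.H386.TM.spread G hn a b hab hne s t hs ht x y hxy
  · rcases hv with ⟨h1, h2⟩ | ⟨h1, h2⟩
    · exact Pool.Agent.H386.TM.low G hn a b hab _ h2 v h1 le_rfl
    · exact Pool.Agent.H386.TM.high G hn a b hab _ h2 v h1 le_rfl
  · exact Pool.Agent.H386.TM.connected G hn a b hab hG hne μ h1 h2 h3
  · exact Pool.Agent.H386.TM.bipartite G hn a b hab c hc
  · exact Pool.Agent.H386.TM.local_degrees G hn a b hab v hv

end Pool.Agent.Results.MP_552896_co.TwoMainEigenvalues
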